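import Pool.Agent.Y124.NFW
import Pool.Agent.Y124.NFPoly
import Pool.Agent.Y890.UC.Poly

/-!
# Relations whose coefficients are polynomials in rational functions of the parameters and in constants
-/

set_option autoImplicit false

open Finset NumberField

namespace Pool.Agent.Y549.GM

open Pool.Agent.Y120 (HtLe Pt house_ge)
open Pool.Agent.Y124 (RelK mgR OneV LocInd oneV_of nfW relK_of_poly')
open Pool.Agent.Y890.UC (sO eval₂_eq_sum)

variable {n p q g : ℕ}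

/-- the values `u_jk(t_j) / w_j(t_j)` and the constants -/
noncomputable def xv (u : Fin n → Fin q → Polynomial ℂ) (w : Fin n → Polynomial ℂ) (ξ : Fin g → ℂ) (τ : Fin n → ℂ) :
    (Fin n × Fin q) ⊕ Fin g → ℂ :=
  Sum.elim (fun y => (u y.1 y.2).eval (τ y.1) / (w y.1).eval (τ y.1)) ξ

/-- the polynomials `∏ u_jk ^ a_jk w_j ^ (d q - ∑ a_jk)` -/
noncomputable def Gp (d : ℕ) (u : Fin n → Fin q → Polynomial ℂ) (w : Fin n → Polynomial ℂ)
    (a : Fin n × Fin q → Fin (d + 1)) (j : Fin n) : Polynomial ℂ :=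
  (∏ k, u j k ^ (a (j, k) : ℕ)) * w j ^ (d * q - ∑ k, (a (j, k) : ℕ))

/-- a bound for the degrees -/
noncomputable def Rd (d : ℕ) (u : Fin n → Fin q → Polynomial ℂ) (w : Fin n → Polynomial ℂ) : ℕ :=
  ∑ j, (∑ k, d * (u j k).natDegree + d * q * (w j).natDegree)

theorem Gp_deg (d : ℕ) (u : Fin n → Fin q → Polynomial ℂ) (w : Fin n → Polynomial ℂ)
    (a : Fin n × Fin q → Fin (d + 1)) (j : Fin n) : (Gp d u w a j).natDegree ≤ Rd d u w := by
  unfold Gp Rd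
  refine Polynomial.natDegree_mul_le.trans ?_
  refine le_trans ?_ (Finset.single_le_sum (f := fun j => ∑ k, d * (u j k).natDegree + d * q * (w j).natDegree)
    (fun _ _ => Nat.zero_le _) (Finset.mem_univ j))
  refine add_le_add ?_ ?_
  · refine (Polynomial.natDegree_prod_le _ _).trans (Finset.sum_le_sum fun k _ => ?_)
    refine Polynomial.natDegree_pow_le.trans ?_
    exact Nat.mul_le_mul_right _ (Nat.lt_succ_iff.1 (a (j, k)).2)
  · refine Polynomial.natDegree_pow_le.trans ?_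
    exact Nat.mul_le_mul_right _ (Nat.sub_le _ _)

theorem Gp_eval (d : ℕ) (u : Fin n → Fin q → Polynomial ℂ) (w : Fin n → Polynomial ℂ)
    (a : Fin n × Fin q → Fin (d + 1)) (j : Fin n) {t : ℂ} (ht : (w j).eval t ≠ 0) :
    (Gp d u w a j).eval t = ((w j).eval t) ^ (d * q) * ∏ k, ((u j k).eval t / (w j).eval t) ^ (a (j, k) : ℕ) := by
  unfold Gp
  rw [Polynomial.eval_mul, Polynomial.eval_prod, Polynomial.eval_pow]
  simp only [Polynomial.eval_pow, div_pow]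
  rw [Finset.prod_div_distrib, Finset.prod_pow_eq_pow_sum]
  have h1 : ∑ k, (a (j, k) : ℕ) ≤ d * q := by
    calc ∑ k, (a (j, k) : ℕ) ≤ ∑ _k : Fin q, d := Finset.sum_le_sum fun k _ => Nat.lt_succ_iff.1 (a (j, k)).2
      _ = d * q := by rw [Finset.sum_const, Finset.card_univ, Fintype.card_fin, smul_eq_mul, mul_comm]
  have h2 : ((w j).eval t) ^ (d * q) = ((w j).eval t) ^ (d * q - ∑ k, (a (j, k) : ℕ)) *
      ((w j).eval t) ^ (∑ k, (a (j, k) : ℕ)) := by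
    rw [← pow_add]
    congr 1
    omega
  have h3 : ((w j).eval t) ^ (∑ k, (a (j, k) : ℕ)) ≠ 0 := pow_ne_zero _ ht
  rw [h2]
  field_simp

/-- the index set of the constants -/
abbrev SI (n q g d R : ℕ) : Type :=
  ((Fin n × Fin q → Fin (d + 1)) × (Fin g → Fin (d + 1))) × (Fin n → Fin (R + 1))

/-- the constants -/
noncomputable def zt (d : ℕ) (u : Fin n → Fin q → Polynomial ℂ) (w : Fin n → Polynomial ℂ) (ξ : Fin g → ℂ)
    (s : SI n q g d (Rd d u w)) : ℂ :=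
  (∏ j, (Gp d u w s.1.1 j).coeff (s.2 j)) * ∏ i, ξ i ^ (s.1.2 i : ℕ)

section conv

variable (F : Type) [Field F] [NumberField F] (ι : F →+* ℂ)

/-- evaluation of the coefficients -/
noncomputable def evc (u : Fin n → Fin q → Polynomial ℂ) (w : Fin n → Polynomial ℂ) (ξ : Fin g → ℂ) (τ : Fin n → ℂ) :
    MvPolynomial ((Fin n × Fin q) ⊕ Fin g) (𝓞 F) →+* ℂ :=
  MvPolynomial.eval₂Hom (ι.comp (algebraMap (𝓞 F) F)) (xv u w ξ τ)

theorem coef_conv (d : ℕ) (u : Fin n → Fin q → Polynomial ℂ) (w : Fin n → Polynomial ℂ) (ξ : Fin g → ℂ)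
    (a b : Fin n → 𝓞 F) (hb : ∀ j, b j ≠ 0) (T H : ℝ) (hT : 1 ≤ T) (hH : 0 ≤ H)
    (ha' : ∀ j (φ : F →+* ℂ), ‖φ (a j : F)‖ ≤ T) (hb' : ∀ j (φ : F →+* ℂ), ‖φ (b j : F)‖ ≤ T)
    (hw : ∀ j, (w j).eval (ι ((a j : F) / b j)) ≠ 0)
    (c : MvPolynomial ((Fin n × Fin q) ⊕ Fin g) (𝓞 F)) (hd : ∀ v, c.degreeOf v ≤ d)
    (hc : ∀ s (φ : F →+* ℂ), ‖φ ((c.coeff s : 𝓞 F) : F)‖ ≤ H) :
    ∃ c' : SI n q g d (Rd d u w) → 𝓞 F, (∀ s (φ : F →+* ℂ), ‖φ (c' s : F)‖ ≤ H * T ^ (n * Rd d u w)) ∧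
      (∏ j, (((w j).eval (ι ((a j : F) / b j))) ^ (d * q) * (ι (b j : F)) ^ Rd d u w)) *
        evc F ι u w ξ (fun j => ι ((a j : F) / b j)) c = ∑ s, zt d u w ξ s * ι (c' s : F) := by
  classical
  set R := Rd d u w with hR
  refine ⟨fun s => c.coeff (sO (Sum.elim s.1.1 s.1.2)) * ∏ j, (a j ^ (s.2 j : ℕ) * b j ^ (R - (s.2 j : ℕ))), ?_, ?_⟩
  · intro s φ
    push_cast
    rw [map_mul, norm_mul, map_prod, norm_prod]
    have h1 : ∀ j, ‖φ ((a j : F) ^ (s.2 j : ℕ) * (b j : F) ^ (R - (s.2 j : ℕ)))‖ ≤ T ^ R := by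
      intro j
      rw [map_mul, map_pow, map_pow, norm_mul, norm_pow, norm_pow]
      calc ‖φ (a j : F)‖ ^ (s.2 j : ℕ) * ‖φ (b j : F)‖ ^ (R - (s.2 j : ℕ)) ≤
          T ^ (s.2 j : ℕ) * T ^ (R - (s.2 j : ℕ)) :=
            mul_le_mul (pow_le_pow_left₀ (norm_nonneg _) (ha' j φ) _) (pow_le_pow_left₀ (norm_nonneg _) (hb' j φ) _)
              (by positivity) (by positivity)
        _ = T ^ R := by
            rw [← pow_add]
            congr 1
            have := (s.2 j).2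
            omega
    calc ‖φ ((c.coeff (sO (Sum.elim s.1.1 s.1.2)) : 𝓞 F) : F)‖ *
        ∏ j, ‖φ ((a j : F) ^ (s.2 j : ℕ) * (b j : F) ^ (R - (s.2 j : ℕ)))‖ ≤ H * ∏ _j : Fin n, T ^ R :=
          mul_le_mul (hc _ φ) (Finset.prod_le_prod (fun _ _ => norm_nonneg _) fun j _ => h1 j)
            (Finset.prod_nonneg fun _ _ => norm_nonneg _) hH
      _ = H * T ^ (n * R) := by
          rw [Finset.prod_const, Finset.card_univ, Fintype.card_fin, ← pow_mul, mul_comm R n]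
  · set τ : Fin n → ℂ := fun j => ι ((a j : F) / b j) with hτ
    have hbι : ∀ j, ι (b j : F) ≠ 0 := by
      intro j h0
      apply hb j
      have h1 : (b j : F) = 0 := (map_eq_zero ι).1 h0
      exact_mod_cast h1
    have e1 : evc F ι u w ξ τ c = ∑ e : ((Fin n × Fin q) ⊕ Fin g) → Fin (d + 1),
        ι ((c.coeff (sO e) : 𝓞 F) : F) * ∏ i, xv u w ξ τ i ^ (e i : ℕ) := by
      unfold evc
      rw [MvPolynomial.coe_eval₂Hom, eval₂_eq_sum (d := d) _ _ _ hd]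
      rfl
    rw [e1, ← (Equiv.sumArrowEquivProdArrow (Fin n × Fin q) (Fin g) (Fin (d + 1))).symm.sum_comp, Finset.mul_sum,
      Fintype.sum_prod_type (f := fun s : SI n q g d R => zt d u w ξ s *
        ι ((c.coeff (sO (Sum.elim s.1.1 s.1.2)) * ∏ j, (a j ^ (s.2 j : ℕ) * b j ^ (R - (s.2 j : ℕ))) : 𝓞 F) : F))]
    refine Finset.sum_congr rfl fun z _ => ?_
    obtain ⟨za, zb⟩ := z
    have e2 : (Equiv.sumArrowEquivProdArrow (Fin n × Fin q) (Fin g) (Fin (d + 1))).symm (za, zb) = Sum.elim za zb := by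
      funext i
      rcases i with i | i <;> rfl
    rw [e2, Fintype.prod_sum_type]
    simp only [Sum.elim_inl, Sum.elim_inr, xv]
    -- one parameter
    have e3 : ∀ j, ((w j).eval (τ j)) ^ (d * q) * (ι (b j : F)) ^ R *
        ∏ k, ((u j k).eval (τ j) / (w j).eval (τ j)) ^ (za (j, k) : ℕ) =
        ∑ l : Fin (R + 1), (Gp d u w za j).coeff l * (ι (a j : F) ^ (l : ℕ) * ι (b j : F) ^ (R - (l : ℕ))) := by
      intro j
      have h1 := Gp_eval d u w za j (hw j)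
      have h2 : ((w j).eval (τ j)) ^ (d * q) * (ι (b j : F)) ^ R *
        ∏ k, ((u j k).eval (τ j) / (w j).eval (τ j)) ^ (za (j, k) : ℕ) =
          (ι (b j : F)) ^ R * (Gp d u w za j).eval (τ j) := by
        rw [h1]
        ring
      rw [h2, Polynomial.eval_eq_sum_range' (show (Gp d u w za j).natDegree < R + 1 from
        Nat.lt_succ_of_le (Gp_deg d u w za j)), Finset.sum_range, Finset.mul_sum]
      refine Finset.sum_congr rfl fun l _ => ?_
      have h3 : ι (b j : F) ^ R = ι (b j : F) ^ (R - (l : ℕ)) * ι (b j : F) ^ (l : ℕ) := by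
        rw [← pow_add]
        congr 1
        have := l.2
        omega
      have h4 : τ j = ι (a j : F) / ι (b j : F) := by
        rw [hτ]
        simp only [map_div₀]
      have h5 : ι (b j : F) ^ (l : ℕ) ≠ 0 := pow_ne_zero _ (hbι j)
      rw [h3, h4, div_pow]
      field_simp
    have e4 : (∏ j, (((w j).eval (τ j)) ^ (d * q) * (ι (b j : F)) ^ R)) *
        ∏ y : Fin n × Fin q, ((u y.1 y.2).eval (τ y.1) / (w y.1).eval (τ y.1)) ^ (za y : ℕ) =
        ∑ l : Fin n → Fin (R + 1), ∏ j, ((Gp d u w za j).coeff (l j) *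
          (ι (a j : F) ^ (l j : ℕ) * ι (b j : F) ^ (R - (l j : ℕ)))) := by
      rw [Fintype.prod_prod_type, ← Finset.prod_mul_distrib, Finset.prod_congr rfl fun j _ => e3 j,
        Finset.prod_univ_sum, Fintype.piFinset_univ]
    calc _ = (ι ((c.coeff (sO (Sum.elim za zb)) : 𝓞 F) : F)) * (∏ i, ξ i ^ (zb i : ℕ)) *
          ((∏ j, (((w j).eval (τ j)) ^ (d * q) * (ι (b j : F)) ^ R)) *
        ∏ y : Fin n × Fin q, ((u y.1 y.2).eval (τ y.1) / (w y.1).eval (τ y.1)) ^ (za y : ℕ)) := by ring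
      _ = _ := by
        rw [e4, Finset.mul_sum]
        refine Finset.sum_congr rfl fun l _ => ?_
        rw [Finset.prod_mul_distrib]
        unfold zt
        push_cast
        rw [map_mul, map_prod]
        simp only [map_mul, map_pow]
        ring

/-- The exceptional tuples of points. -/
def Exc (d : ℕ) (f : Fin n → Fin p → ℂ → ℂ) (u : Fin n → Fin q → Polynomial ℂ) (w : Fin n → Polynomial ℂ)
    (ξ : Fin g → ℂ) (L : Fin n → Set ℂ) (A B T : ℝ) : Set (Fin n → F) :=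
  {t | (∀ j, HtLe F T (t j) ∧ ι (t j) ∈ L j) ∧
    ∃ P : MvPolynomial (Fin n × Fin p) (MvPolynomial ((Fin n × Fin q) ⊕ Fin g) (𝓞 F)),
      (∀ x, P.degreeOf x ≤ d) ∧ (∀ e v, (P.coeff e).degreeOf v ≤ d) ∧
      (∀ e s (φ : F →+* ℂ), ‖φ (((P.coeff e).coeff s : 𝓞 F) : F)‖ ≤ T ^ A) ∧
      ∃ e₀, evc F ι u w ξ (fun j => ι (t j)) (P.coeff e₀) ≠ 0 ∧
        ‖MvPolynomial.eval₂ (evc F ι u w ξ fun j => ι (t j)) (fun x : Fin n × Fin p => f x.1 x.2 (ι (t x.1))) P‖ ≤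
          T ^ (-B) * ‖evc F ι u w ξ (fun j => ι (t j)) (P.coeff e₀)‖}

end conv

theorem general (m n p q g d : ℕ) (f : Fin n → Fin p → ℂ → ℂ) (L : Fin n → Set ℂ) (hL : ∀ j, IsCompact (L j))
    (han : ∀ j i, ∀ t ∈ L j, AnalyticAt ℂ (f j i) t) (hind : ∀ j, ∀ t ∈ L j, LocInd (f j) t)
    (u : Fin n → Fin q → Polynomial ℂ) (w : Fin n → Polynomial ℂ) (hw : ∀ j, ∀ t ∈ L j, (w j).eval t ≠ 0)
    (A ε : ℝ) (hε : 0 < ε) :
    ∃ B C T₀ : ℝ, 0 ≤ C ∧ 2 ≤ T₀ ∧ ∀ (F : Type) [Field F] [NumberField F], Module.finrank ℚ F ≤ m →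
      ∀ (ι : F →+* ℂ) (ξ : Fin g → ℂ) (T : ℝ), T₀ ≤ T → (Exc F ι d f u w ξ L A B T).Finite ∧
        ((Exc F ι d f u w ξ L A B T).ncard : ℝ) ≤
          C * T ^ ε * (({x : F | HtLe F T x ∧ ι x ∈ ⋃ j, L j}.ncard : ℝ)) ^ (n - 1) := by
  classical
  set R := Rd d u w with hR
  obtain ⟨B, C, T₀, hC, hT₀, H⟩ := nfW (α := ℂ) (κ := Fin p) m n (fun z => z) L (⋃ j, L j)
    (fun j x hx => Set.mem_iUnion.2 ⟨j, hx⟩) 1 (fun j s => by
      have h1 : {x | x ∈ L j ∧ x = s} ⊆ {s} := fun x hx => hx.2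
      refine ⟨(Set.finite_singleton s).subset h1, ?_⟩
      exact (Set.ncard_le_ncard h1 (Set.finite_singleton s)).trans (by rw [Set.ncard_singleton]))
    (fun j t i => f j i t) (fun gg j => oneV_of gg (f j) (L j) (hL j) (fun i t ht => han j i t ht)
      (fun t ht => hind j t ht)) (SI n q g d R) d (A + (n * R : ℕ)) ε hε
  refine ⟨B, C, T₀, hC, hT₀, fun F _ _ hF ι ξ T hT => ?_⟩
  refine H F hF ι (zt d u w ξ) T hT _ fun t ht => ?_
  obtain ⟨ht1, P, hPd, hPcd, hPc, e₀, he₀, hs⟩ := ht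
  have hT1 : 1 ≤ T := by linarith
  have hTp : 0 < T := by linarith
  have hab : ∀ j, ∃ a b : 𝓞 F, b ≠ 0 ∧ (∀ φ : F →+* ℂ, ‖φ (a : F)‖ ≤ T) ∧ (∀ φ : F →+* ℂ, ‖φ (b : F)‖ ≤ T) ∧
      t j = a / b := by
    intro j
    obtain ⟨a, b, hb, ha1, hb1, hx⟩ := (ht1 j).1
    exact ⟨a, b, hb, fun φ => (house_ge F _ φ).trans ha1, fun φ => (house_ge F _ φ).trans hb1, hx⟩
  choose a b hb0 ha hb htab using hab
  have hτ : (fun j => ι (t j)) = fun j => ι ((a j : F) / b j) := by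
    funext j
    rw [htab j]
  refine ⟨fun j => ι (t j), fun j => ⟨(ht1 j).2, rfl, (ht1 j).1⟩, ?_⟩
  have hww : ∀ j, (w j).eval (ι ((a j : F) / b j)) ≠ 0 := by
    intro j
    rw [← htab j]
    exact hw j _ (ht1 j).2
  set W : ℂ := ∏ j, (((w j).eval (ι ((a j : F) / b j))) ^ (d * q) * (ι (b j : F)) ^ R) with hW
  have hW0 : W ≠ 0 := by
    rw [hW, Finset.prod_ne_zero_iff]
    intro j _
    refine mul_ne_zero (pow_ne_zero _ (hww j)) (pow_ne_zero _ ?_)
    intro h0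
    apply hb0 j
    have h1 : (b j : F) = 0 := (map_eq_zero ι).1 h0
    exact_mod_cast h1
  have hpow : T ^ A * T ^ (n * R) = T ^ (A + (n * R : ℕ)) := by
    rw [Real.rpow_add hTp, Real.rpow_natCast]
  set ev := evc F ι u w ξ fun j => ι (t j) with hev
  refine relK_of_poly' F ι (zt d u w ξ) (fun j t i => f j i t) (fun j => ι (t j)) _ _
    (MvPolynomial.C W * P.map ev) ?_ ?_ e₀ ?_ ?_
  · intro x
    refine (MvPolynomial.degreeOf_C_mul_le _ _ _).trans ?_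
    refine le_trans ?_ (hPd x)
    classical
    rw [MvPolynomial.degreeOf_eq_sup, MvPolynomial.degreeOf_eq_sup]
    exact Finset.sup_mono (MvPolynomial.support_map_subset _ _)
  · intro s
    obtain ⟨c', h1, h2⟩ := coef_conv F ι d u w ξ a b hb0 T (T ^ A) hT1 (by positivity) ha hb hww (P.coeff s)
      (hPcd s) (fun s' φ => hPc s s' φ)
    refine ⟨c', fun i φ => ?_, ?_⟩
    · rw [← hpow]
      exact h1 i φ
    · rw [MvPolynomial.coeff_C_mul, MvPolynomial.coeff_map, hev, hτ]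
      exact h2
  · rw [MvPolynomial.coeff_C_mul, MvPolynomial.coeff_map]
    exact mul_ne_zero hW0 he₀
  · rw [map_mul, MvPolynomial.aeval_C, MvPolynomial.coeff_C_mul, MvPolynomial.coeff_map]
    have h1 : MvPolynomial.aeval (fun x : Fin n × Fin p => f x.1 x.2 (ι (t x.1))) (P.map ev) =
        MvPolynomial.eval₂ ev (fun x : Fin n × Fin p => f x.1 x.2 (ι (t x.1))) P := by
      rw [MvPolynomial.aeval_def, MvPolynomial.eval₂_map]
      rfl
    rw [h1, norm_mul, norm_mul]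
    have h2 : ‖algebraMap ℂ ℂ W‖ = ‖W‖ := rfl
    rw [h2]
    calc ‖W‖ * ‖MvPolynomial.eval₂ ev (fun x : Fin n × Fin p => f x.1 x.2 (ι (t x.1))) P‖ ≤
        ‖W‖ * (T ^ (-B) * ‖ev (P.coeff e₀)‖) := mul_le_mul_of_nonneg_left hs (norm_nonneg _)
      _ = T ^ (-B) * (‖W‖ * ‖ev (P.coeff e₀)‖) := by ring

end Pool.Agent.Y549.GM
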