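import Pool.Agent.W175.GF.Final
import Pool.Agent.Y124.StdC

/-!
# Local algebraic independence of values of the Gamma function at algebraic functions
-/

set_option autoImplicit false

open Filter Topology

namespace Pool.Agent.Y549.GM

open Pool.Agent.W175.GF

/-- the two readings of a polynomial in one more variable -/
theorem eval_option {κ : Type} (P : MvPolynomial (Option κ) ℂ) (t : ℂ) (f : κ → ℂ) :
    MvPolynomial.eval (fun o => o.elim t f) P =
      MvPolynomial.eval₂ (Polynomial.evalRingHom t) f (MvPolynomial.optionEquivRight ℂ κ P) := by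
  have h : (MvPolynomial.eval (fun o : Option κ => o.elim t f)) =
      (MvPolynomial.eval₂Hom (Polynomial.evalRingHom t) f).comp
        (MvPolynomial.optionEquivRight ℂ κ).toRingEquiv.toRingHom := by
    apply MvPolynomial.ringHom_ext
    · intro r
      simp
    · intro o
      cases o with
      | none => simp
      | some i => simp
  have := RingHom.congr_fun h P
  simpa using this

theorem algDep_poly (Ω : Set ℂ) (p : Polynomial ℂ) : AlgDep Ω (fun t => t) (fun t => p.eval t) := by
  refine ⟨Polynomial.X - Polynomial.C p, ?_, fun t _ => ?_⟩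
  · exact Polynomial.X_sub_C_ne_zero p
  · simp [Polynomial.evalEval]

/-- `1 / Γ` composed with a differentiable function is differentiable -/
theorem diff_rg {Ω : Set ℂ} {y : ℂ → ℂ} (hy : DifferentiableOn ℂ y Ω) :
    DifferentiableOn ℂ (fun t => (Complex.Gamma (y t))⁻¹) Ω :=
  Complex.differentiable_one_div_Gamma.comp_differentiableOn hy

theorem locInd {κ : Type} [Fintype κ] [DecidableEq κ] (Ω : Set ℂ) (hΩ : IsOpen Ω) (hΩp : IsPreconnected Ω)
    (y : κ → ℂ → ℂ) (hy : ∀ i, DifferentiableOn ℂ (y i) Ω)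
    (halg : ∀ i, ∃ Q : Polynomial (Polynomial ℂ), Q ≠ 0 ∧ ∀ t ∈ Ω, Q.evalEval t (y i t) = 0)
    (hnc : ∀ i, ∀ v : ℂ, ¬ ∀ t ∈ Ω, y i t = v)
    (hH : ∀ i k, i ≠ k → ∀ p q : ℚ, ¬ ∀ t ∈ Ω, y i t = p * y k t + q) (t0 : ℂ) (ht0 : t0 ∈ Ω)
    (h0 : ∀ i, ∀ m : ℕ, y i t0 ≠ -m) :
    Pool.Agent.Y124.LocInd (fun i t => Complex.Gamma (y i t)) t0 := by
  classical
  intro P hP
  -- no poles near the point
  have hne : ∀ᶠ t in 𝓝 t0, ∀ i, Complex.Gamma (y i t) ≠ 0 := by
    rw [Filter.eventually_all]
    intro i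
    have h1 : ContinuousAt (fun t => Complex.Gamma (y i t)) t0 := by
      have h2 : DifferentiableAt ℂ Complex.Gamma (y i t0) := Complex.differentiableAt_Gamma _ (h0 i)
      have h3 : ContinuousAt (y i) t0 := ((hy i).differentiableAt (hΩ.mem_nhds ht0)).continuousAt
      exact h2.continuousAt.comp (f := y i) h3
    exact h1.eventually_ne (Complex.Gamma_ne_zero (h0 i))
  set Q := MvPolynomial.optionEquivRight ℂ κ P with hQ
  set d : ℕ := Q.support.sup fun e => ∑ i, e i with hd
  have hde : ∀ e ∈ Q.support, ∀ i, e i ≤ d := by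
    intro e he i
    have h1 : ∑ i, e i ≤ d := Finset.le_sup (f := fun e : κ →₀ ℕ => ∑ i, e i) he
    exact (Finset.single_le_sum (f := fun i => e i) (fun _ _ => Nat.zero_le _) (Finset.mem_univ i)).trans h1
  let φ : (κ →₀ ℕ) → (κ → ℕ) := fun e i => d - e i
  let ψ : (κ → ℕ) → (κ →₀ ℕ) := fun k => Finsupp.equivFunOnFinite.symm fun i => d - k i
  have hψφ : ∀ e ∈ Q.support, ψ (φ e) = e := by
    intro e he
    ext i
    have := hde e he i
    simp only [φ, ψ, Finsupp.equivFunOnFinite_symm_apply_apply]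
    omega
  have hinj : Set.InjOn φ Q.support := by
    intro e he e' he' h
    rw [← hψφ e he, ← hψφ e' he', h]
  set G : ℂ → ℂ := fun t => ∑ k ∈ Q.support.image φ, (Q.coeff (ψ k)).eval t *
    ∏ i, (Complex.Gamma (y i t))⁻¹ ^ k i with hG
  have hGd : DifferentiableOn ℂ G Ω := by
    refine DifferentiableOn.fun_sum fun k _ => ?_
    refine (Q.coeff (ψ k)).differentiable.differentiableOn.mul ?_
    refine DifferentiableOn.fun_finset_prod fun i _ => ?_
    exact (diff_rg (hy i)).pow _
  have hG0 : ∀ᶠ t in 𝓝 t0, G t = 0 := by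
    filter_upwards [hP, hne] with t h3 h4
    rw [eval_option, ← hQ, MvPolynomial.eval₂_eq'] at h3
    rw [hG]
    simp only
    rw [Finset.sum_image (fun e he e' he' h => hinj he he' h)]
    have h5 : ∑ e ∈ Q.support, (Q.coeff (ψ (φ e))).eval t * ∏ i, (Complex.Gamma (y i t))⁻¹ ^ φ e i =
        (∏ i, (Complex.Gamma (y i t))⁻¹ ^ d) * ∑ e ∈ Q.support, Polynomial.evalRingHom t (Q.coeff e) *
          ∏ i, Complex.Gamma (y i t) ^ e i := by
      rw [Finset.mul_sum]
      refine Finset.sum_congr rfl fun e he => ?_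
      rw [hψφ e he]
      have h6 : ∏ i, (Complex.Gamma (y i t))⁻¹ ^ d = (∏ i, (Complex.Gamma (y i t))⁻¹ ^ φ e i) *
          ∏ i, (Complex.Gamma (y i t))⁻¹ ^ e i := by
        rw [← Finset.prod_mul_distrib]
        refine Finset.prod_congr rfl fun i _ => ?_
        rw [← pow_add]
        congr 1
        have := hde e he i
        simp only [φ]
        omega
      have h7 : (∏ i, (Complex.Gamma (y i t))⁻¹ ^ e i) * ∏ i, Complex.Gamma (y i t) ^ e i = 1 := by
        rw [← Finset.prod_mul_distrib]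
        refine Finset.prod_eq_one fun i _ => ?_
        rw [← mul_pow, inv_mul_cancel₀ (h4 i), one_pow]
      rw [h6, Polynomial.coe_evalRingHom]
      linear_combination (-(Polynomial.eval t (Q.coeff e)) * ∏ i, (Complex.Gamma (y i t))⁻¹ ^ φ e i) * h7
    rw [h5, h3, mul_zero]
  have hG1 : ∀ t ∈ Ω, G t = 0 := by
    have h1 := (hGd.analyticOnNhd hΩ).eqOn_zero_of_preconnected_of_eventuallyEq_zero hΩp ht0 hG0
    exact fun t ht => h1 ht
  have hinf : Ω.Infinite := infinite_of_mem_nhds t0 (hΩ.mem_nhds ht0)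
  have hpoly : ∀ p q : Polynomial ℂ, (∀ t ∈ Ω, p.eval t = q.eval t) → p = q := by
    intro p q h
    exact Polynomial.eq_of_infinite_eval_eq p q (hinf.mono fun t ht => h t ht)
  have h2 := gtF κ Ω (fun t => t) y (Q.support.image φ)
    (fun k t => (Q.coeff (ψ k)).eval t) hΩ hΩp ⟨t0, ht0⟩ differentiableOn_id hy
    (fun k _ => (Q.coeff (ψ k)).differentiable.differentiableOn)
    (fun v hv => by
      have := hpoly Polynomial.X (Polynomial.C v) (fun t ht => by simpa using hv t ht)
      exact Polynomial.X_ne_C v this)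
    hnc halg (fun k _ => algDep_poly Ω _) hH hG1
  have hQ0 : Q = 0 := by
    by_contra hne0
    obtain ⟨e, he⟩ := MvPolynomial.support_nonempty.2 hne0
    have h3 : Q.coeff e = 0 := by
      refine hpoly _ _ fun t ht => ?_
      have := h2 (φ e) (Finset.mem_image_of_mem _ he) t ht
      rw [hψφ e he] at this
      rw [this, Polynomial.eval_zero]
    exact (MvPolynomial.mem_support_iff.1 he) h3
  exact (map_eq_zero_iff _ (MvPolynomial.optionEquivRight ℂ κ).injective).1 hQ0

end Pool.Agent.Y549.GM
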